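import Mathlib

/-! Nondeterministic multitape Turing machines and the classes `NTIME(Pol t)`. -/

namespace Pool.Agent.Lead.NTM

/-- A head move. -/
inductive Move where
  | left
  | stay
  | right

/-- The displacement of a head move. -/
def Move.toInt : Move → ℤ
  | .left => -1
  | .stay => 0
  | .right => 1

/-- A nondeterministic multitape Turing machine with input alphabet `A`. It has `k + 1` two-way
infinite tapes; the input is written on tape `0`. The tape alphabet consists of the letters of `A`,
the finitely many extra letters `G` and the blank `none`. `δ q x` is the set of the possible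
actions in state `q` when `x` is the tuple of scanned letters: new state, letters to write,
head moves. -/
structure Machine (A : Type) where
  /-- number of additional tapes -/
  k : ℕ
  /-- states -/
  Q : Type
  finQ : Finite Q
  /-- additional tape letters -/
  G : Type
  finG : Finite G
  /-- start state -/
  start : Q
  /-- accepting states -/
  accepting : Set Q
  /-- transition relation -/
  δ : Q → (Fin (k + 1) → Option (A ⊕ G)) →
    Set (Q × (Fin (k + 1) → Option (A ⊕ G)) × (Fin (k + 1) → Move))

/-- A configuration: state, tape contents, head positions. -/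
structure Config {A : Type} (M : Machine A) where
  state : M.Q
  tape : Fin (M.k + 1) → ℤ → Option (A ⊕ M.G)
  pos : Fin (M.k + 1) → ℤ

/-- The content of a tape on which the word `w` is written on the cells `0, 1, …, |w| - 1`, all
other cells being blank. -/
def wordTape {A G : Type} (w : List A) : ℤ → Option (A ⊕ G) :=
  fun z => if 0 ≤ z then (w[z.toNat]?).map Sum.inl else none

/-- The starting configuration on input `w`. -/
def startConfig {A : Type} (M : Machine A) (w : List A) : Config M where
  state := M.start
  tape := fun i => if i = 0 then wordTape w else fun _ => none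
  pos := fun _ => 0

/-- One computation step. -/
def Step {A : Type} (M : Machine A) (c c' : Config M) : Prop :=
  ∃ r ∈ M.δ c.state (fun i => c.tape i (c.pos i)),
    c'.state = r.1 ∧
    c'.tape = (fun i => Function.update (c.tape i) (c.pos i) (r.2.1 i)) ∧
    c'.pos = (fun i => c.pos i + (r.2.2 i).toInt)

/-- `M` has an accepting computation of exactly `s` steps on the input `w`. -/
def AcceptsIn {A : Type} (M : Machine A) (w : List A) (s : ℕ) : Prop :=
  ∃ c : ℕ → Config M, c 0 = startConfig M w ∧ (∀ i < s, Step M (c i) (c (i + 1))) ∧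
    (c s).state ∈ M.accepting

/-- `M` accepts `w`. -/
def Accepts {A : Type} (M : Machine A) (w : List A) : Prop := ∃ s, AcceptsIn M w s

/-- The class `NTIME(Pol t)` of languages over the alphabet `A`: some nondeterministic machine
accepts exactly `L`, and for some polynomial `p` every `w ∈ L` has an accepting computation of
length at most `p(t(|w|))`. -/
def NTIMEPol (A : Type) (t : ℕ → ℕ) : Set (Set (List A)) :=
  {L | ∃ (M : Machine A) (p : Polynomial ℕ), (∀ w, w ∈ L ↔ Accepts M w) ∧
    ∀ w ∈ L, ∃ s ≤ p.eval (t w.length), AcceptsIn M w s}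

/-- The class `coNTIME(Pol t)`: complements of the languages in `NTIME(Pol t)`. -/
def coNTIMEPol (A : Type) (t : ℕ → ℕ) : Set (Set (List A)) := {L | Lᶜ ∈ NTIMEPol A t}

/-- `L` is prefix-determined: for some `N` membership of a word in `L` depends only on its prefix
of length `N` (on the whole word if it is shorter). -/
def PrefixDetermined {A : Type} (L : Set (List A)) : Prop :=
  ∃ N : ℕ, ∀ w w' : List A, w.take N = w'.take N → (w ∈ L ↔ w' ∈ L)

theorem prefixDetermined_compl {A : Type} {L : Set (List A)} (h : PrefixDetermined L) :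
    PrefixDetermined Lᶜ := by
  obtain ⟨N, hN⟩ := h
  exact ⟨N, fun w w' hw => not_congr (hN w w' hw)⟩

theorem prefixDetermined_compl_iff {A : Type} {L : Set (List A)} :
    PrefixDetermined Lᶜ ↔ PrefixDetermined L := by
  refine ⟨fun h => ?_, prefixDetermined_compl⟩
  have := prefixDetermined_compl h
  rwa [compl_compl] at this

theorem Move.abs_toInt_le (m : Move) : |m.toInt| ≤ 1 := by
  cases m <;> simp [Move.toInt]

/-- In `i` steps a head moves by at most `i` cells. -/
theorem abs_pos_le {A : Type} {M : Machine A} {w : List A} {s : ℕ} {c : ℕ → Config M}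
    (h0 : c 0 = startConfig M w) (hs : ∀ i < s, Step M (c i) (c (i + 1))) (j : Fin (M.k + 1)) :
    ∀ i ≤ s, |(c i).pos j| ≤ i := by
  intro i
  induction i with
  | zero => intro _; simp [h0, startConfig]
  | succ i ih =>
    intro hi
    obtain ⟨r, -, -, -, hp⟩ := hs i hi
    rw [hp]
    have h1 := ih (by omega)
    have h2 := Move.abs_toInt_le (r.2.2 j)
    calc |(c i).pos j + (r.2.2 j).toInt| ≤ |(c i).pos j| + |(r.2.2 j).toInt| := abs_add_le _ _
      _ ≤ i + 1 := by linarith
      _ = ((i + 1 : ℕ) : ℤ) := by push_cast; ring

theorem wordTape_congr {A G : Type} {w w' : List A} {s : ℕ} (h : w.take s = w'.take s) {z : ℤ}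
    (hz : z < s) : (wordTape w : ℤ → Option (A ⊕ G)) z = wordTape w' z := by
  unfold wordTape
  split_ifs with h0
  · have hz' : z.toNat < s := by omega
    have : w[z.toNat]? = w'[z.toNat]? := by
      have h1 : (w.take s)[z.toNat]? = (w'.take s)[z.toNat]? := by rw [h]
      rwa [List.getElem?_take_of_lt hz', List.getElem?_take_of_lt hz'] at h1
    rw [this]
  · rfl

/-- The configuration `c` with the cells `≥ s` of tape `0` replaced by those of the tape of `w'`. -/
def patch {A : Type} {M : Machine A} (s : ℕ) (w' : List A) (c : Config M) : Config M where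
  state := c.state
  tape := fun i z => if i = 0 ∧ (s : ℤ) ≤ z then wordTape w' z else c.tape i z
  pos := c.pos

/-- Locality: an accepting computation of length `s` only depends on the first `s` letters of the
input. -/
theorem acceptsIn_congr {A : Type} {M : Machine A} {w w' : List A} {s : ℕ}
    (h : w.take s = w'.take s) (hw : AcceptsIn M w s) : AcceptsIn M w' s := by
  obtain ⟨c, h0, hs, ha⟩ := hw
  refine ⟨fun i => patch s w' (c i), ?_, ?_, ha⟩
  · simp only [h0, patch, startConfig]
    congr 1
    funext i z
    by_cases hi : i = 0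
    · subst hi
      by_cases hz : (s : ℤ) ≤ z
      · simp [hz]
      · simp only [hz, and_false, if_false, if_true]
        exact wordTape_congr h (by omega)
    · simp [hi]
  · intro i hi
    obtain ⟨r, hr, h1, h2, h3⟩ := hs i hi
    have hpos : ∀ j, (c i).pos j < s := by
      intro j
      have := abs_pos_le h0 hs j i hi.le
      have h' := le_abs_self ((c i).pos j)
      have : (i : ℤ) < s := by exact_mod_cast hi
      omega
    have hread : (fun j => (patch s w' (c i)).tape j ((patch s w' (c i)).pos j)) =
        fun j => (c i).tape j ((c i).pos j) := by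
      funext j
      have := hpos j
      simp only [patch]
      rw [if_neg (by omega)]
    refine ⟨r, ?_, h1, ?_, h3⟩
    · rw [hread]; exact hr
    · funext j z
      have hj := hpos j
      simp only [patch, h2]
      by_cases hc : j = 0 ∧ (s : ℤ) ≤ z
      · rw [if_pos hc, Function.update_of_ne (by omega), if_pos hc]
      · rw [if_neg hc]
        by_cases hz : z = (c i).pos j
        · subst hz
          simp
        · rw [Function.update_of_ne hz, Function.update_of_ne hz, if_neg hc]

/-! ### Prefix-determined languages are accepted in constant time -/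

section PrefixMachine

open Classical in
/-- The transition function of the deterministic machine reading at most `N` letters of its
input. -/
noncomputable def prefixδ {A : Type} (L : Set (List A)) (N : ℕ)
    (q : Option {l : List A // l.length ≤ N}) (x : Fin (0 + 1) → Option (A ⊕ Empty)) :
    Set (Option {l : List A // l.length ≤ N} × (Fin (0 + 1) → Option (A ⊕ Empty)) ×
      (Fin (0 + 1) → Move)) :=
  match q with
  | none => ∅
  | some l =>
    match x 0 with
    | some (Sum.inl a) =>
      if h : l.1.length < N then
        {(some ⟨l.1 ++ [a], by simp; omega⟩, x, fun _ => Move.right)}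
      else if l.1 ∈ L then {(none, x, fun _ => Move.stay)} else ∅
    | _ => if l.1 ∈ L then {(none, x, fun _ => Move.stay)} else ∅

/-- The deterministic machine reading at most `N` letters of its input. `none` is the accepting
state. -/
noncomputable def prefixMachine {A : Type} [Finite A] (L : Set (List A)) (N : ℕ) : Machine A where
  k := 0
  Q := Option {l : List A // l.length ≤ N}
  finQ := by
    have : Finite {l : List A // l.length ≤ N} := (List.finite_length_le A N).to_subtype
    infer_instance
  G := Empty
  finG := inferInstance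
  start := some ⟨[], by simp⟩
  accepting := {none}
  δ := prefixδ L N

theorem prefixδ_letter {A : Type} (L : Set (List A)) (N : ℕ)
    (l : {l : List A // l.length ≤ N}) (a : A) (x : Fin (0 + 1) → Option (A ⊕ Empty))
    (hx : x 0 = some (Sum.inl a)) (hl : l.1.length < N) :
    prefixδ L N (some l) x =
      {(some ⟨l.1 ++ [a], by simp; omega⟩, x, fun _ => Move.right)} := by
  simp only [prefixδ, hx, dif_pos hl]

open Classical in
theorem prefixδ_end {A : Type} (L : Set (List A)) (N : ℕ)
    (l : {l : List A // l.length ≤ N}) (x : Fin (0 + 1) → Option (A ⊕ Empty))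
    (hx : x 0 = none ∨ ¬ l.1.length < N) :
    prefixδ L N (some l) x =
      if l.1 ∈ L then {(none, x, fun _ => Move.stay)} else ∅ := by
  simp only [prefixδ]
  rcases hx0 : x 0 with _ | (a | b)
  · rfl
  · rcases hx with hx | hx
    · rw [hx0] at hx; exact absurd hx (by simp)
    · simp only [dif_neg hx]
  · exact b.elim

/-- A configuration of the prefix machine in a nonaccepting state reached at time `i`. -/
noncomputable def pcfg {A : Type} [Finite A] (L : Set (List A)) (N : ℕ) (w : List A)
    (q : Option {l : List A // l.length ≤ N}) (i : ℕ) : Config (prefixMachine L N) :=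
  ⟨q, (fun _ => wordTape w : Fin (0 + 1) → ℤ → Option (A ⊕ Empty)),
    (fun _ => (i : ℤ) : Fin (0 + 1) → ℤ)⟩

theorem startConfig_prefixMachine {A : Type} [Finite A] (L : Set (List A)) (N : ℕ) (w : List A) :
    startConfig (prefixMachine L N) w = pcfg L N w (some ⟨[], by simp⟩) 0 := by
  unfold startConfig pcfg
  congr 1
  funext i
  have : i = 0 := Fin.eq_zero (i : Fin 1)
  exact if_pos this

theorem step_pcfg_iff {A : Type} [Finite A] (L : Set (List A)) (N : ℕ) (w : List A)
    (q : Option {l : List A // l.length ≤ N}) (i : ℕ) (c' : Config (prefixMachine L N)) :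
    Step (prefixMachine L N) (pcfg L N w q i) c' ↔
      ∃ r ∈ prefixδ L N q (fun _ => wordTape w i),
        c'.state = r.1 ∧
        c'.tape = (fun j => Function.update (wordTape w) (i : ℤ) (r.2.1 j)) ∧
        c'.pos = (fun j => (i : ℤ) + (r.2.2 j).toInt) := Iff.rfl

theorem step_pcfg_letter {A : Type} [Finite A] (L : Set (List A)) (N : ℕ) (w : List A) (i : ℕ)
    (hi : i < w.length) (hiN : i < N) (c' : Config (prefixMachine L N)) :
    Step (prefixMachine L N) (pcfg L N w (some ⟨w.take i, by simp; omega⟩) i) c' ↔
      c' = pcfg L N w (some ⟨w.take (i + 1), by simp; omega⟩) (i + 1) := by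
  have hx : (wordTape w : ℤ → Option (A ⊕ Empty)) i = some (Sum.inl w[i]) := by
    simp [wordTape, hi]
  have hδ := prefixδ_letter L N ⟨w.take i, by simp; omega⟩ w[i] (fun _ => wordTape w i) hx
    (by show (w.take i).length < N; simp; omega)
  rw [step_pcfg_iff, hδ]
  have htk : w.take (i + 1) = w.take i ++ [w[i]] := List.take_succ_eq_append_getElem hi
  constructor
  · rintro ⟨r, hr, h1, h2, h3⟩
    rw [Set.mem_singleton_iff] at hr
    subst hr
    obtain ⟨st, tp, ps⟩ := c'
    simp only at h1 h2 h3
    unfold pcfg
    congr 1
    · rw [h1]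
      exact congrArg some (Subtype.ext htk.symm)
    · rw [h2]
      funext j
      exact Function.update_eq_self _ _
  · rintro rfl
    refine ⟨_, rfl, ?_, ?_, ?_⟩
    · exact congrArg some (Subtype.ext htk)
    · funext j
      exact (Function.update_eq_self _ _).symm
    · funext j
      exact Nat.cast_succ i

theorem step_pcfg_end {A : Type} [Finite A] (L : Set (List A)) (N : ℕ) (w : List A) (i : ℕ)
    (hi : i = min N w.length) (c' : Config (prefixMachine L N)) :
    Step (prefixMachine L N) (pcfg L N w (some ⟨w.take i, by simp; omega⟩) i) c' ↔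
      w.take N ∈ L ∧ c' = pcfg L N w none i := by
  have htk : w.take i = w.take N := by
    by_cases hiw : i < w.length
    · have : i = N := by omega
      rw [this]
    · rw [List.take_of_length_le (by omega), List.take_of_length_le (by omega)]
  have hx : (wordTape w : ℤ → Option (A ⊕ Empty)) i = none ∨ ¬ (w.take i).length < N := by
    by_cases hiw : i < w.length
    · right; simp; omega
    · left
      simp [wordTape]
      omega
  have hδ := prefixδ_end L N ⟨w.take i, by simp; omega⟩ (fun _ => wordTape w i) hx
  rw [step_pcfg_iff, hδ]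
  constructor
  · rintro ⟨r, hr, h1, h2, h3⟩
    split_ifs at hr with hmem
    · refine ⟨htk ▸ hmem, ?_⟩
      rw [Set.mem_singleton_iff] at hr
      subst hr
      obtain ⟨st, tp, ps⟩ := c'
      simp only at h1 h2 h3
      unfold pcfg
      congr 1
      · rw [h2]
        funext j
        exact Function.update_eq_self _ _
    · exact absurd hr (by simp)
  · rintro ⟨hmem, rfl⟩
    have hmem' : w.take i ∈ L := by rw [htk]; exact hmem
    rw [if_pos hmem']
    refine ⟨_, rfl, rfl, ?_, ?_⟩
    · funext j
      exact (Function.update_eq_self _ _).symm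
    · funext j
      exact (add_zero _).symm

theorem not_step_pcfg_none {A : Type} [Finite A] (L : Set (List A)) (N : ℕ) (w : List A) (i : ℕ)
    (c' : Config (prefixMachine L N)) :
    ¬ Step (prefixMachine L N) (pcfg L N w none i) c' := by
  rw [step_pcfg_iff]
  rintro ⟨r, hr, -⟩
  exact hr

/-- The computation of the prefix machine. -/
theorem take_mem_of_acceptsIn {A : Type} [Finite A] {L : Set (List A)} {N : ℕ} {w : List A}
    {s : ℕ} (h : AcceptsIn (prefixMachine L N) w s) : w.take N ∈ L := by
  obtain ⟨c, h0, hs, ha⟩ := h
  have key : ∀ i ≤ s, (w.take N ∈ L) ∨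
      (i ≤ min N w.length ∧ ∃ hl, c i = pcfg L N w (some ⟨w.take i, hl⟩) i) := by
    intro i
    induction i with
    | zero =>
      intro _
      right
      refine ⟨by omega, by simp, ?_⟩
      rw [h0, startConfig_prefixMachine]
      rfl
    | succ i ih =>
      intro hi
      have hst := hs i (by omega)
      rcases ih (by omega) with hL | ⟨hle, hl, hc⟩
      · exact Or.inl hL
      · rw [hc] at hst
        rcases hle.lt_or_eq with hlt | heq
        · rw [step_pcfg_letter L N w i (by omega) (by omega)] at hst
          exact Or.inr ⟨by omega, by simp; omega, hst⟩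
        · rw [step_pcfg_end L N w i heq] at hst
          exact Or.inl hst.1
  rcases key s le_rfl with hL | ⟨-, hl, hst⟩
  · exact hL
  · rw [hst] at ha
    have : (some ⟨w.take s, hl⟩ : Option {l : List A // l.length ≤ N}) = none := ha
    exact absurd this (by simp)

theorem acceptsIn_of_take_mem {A : Type} [Finite A] {L : Set (List A)} {N : ℕ} {w : List A}
    (h : w.take N ∈ L) : AcceptsIn (prefixMachine L N) w (min N w.length + 1) := by
  set m := min N w.length with hm
  refine ⟨fun i => if hi : i ≤ m then pcfg L N w (some ⟨w.take i, by simp; omega⟩) i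
    else pcfg L N w none m, ?_, ?_, ?_⟩
  · simp only [Nat.zero_le, dif_pos]
    rw [startConfig_prefixMachine]
    rfl
  · intro i hi
    by_cases him : i < m
    · simp only [dif_pos him.le, dif_pos (show i + 1 ≤ m by omega)]
      rw [step_pcfg_letter L N w i (by omega) (by omega)]
    · have him' : i = m := by omega
      simp only [dif_pos him'.le, dif_neg (show ¬ i + 1 ≤ m by omega)]
      rw [step_pcfg_end L N w i him']
      exact ⟨h, by rw [him']⟩
  · simp only [dif_neg (show ¬ m + 1 ≤ m by omega)]
    exact Set.mem_singleton _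

end PrefixMachine

/-- Prefix-determined languages lie in every class `NTIME(Pol t)`. -/
theorem prefixDetermined_mem {A : Type} [Finite A] (t : ℕ → ℕ) {L : Set (List A)}
    (h : PrefixDetermined L) : L ∈ NTIMEPol A t := by
  obtain ⟨N, hN⟩ := h
  have hiff : ∀ w : List A, w ∈ L ↔ w.take N ∈ L := fun w => hN w _ (by simp)
  refine ⟨prefixMachine L N, Polynomial.C (N + 1), fun w => ⟨fun hw => ?_, fun hw => ?_⟩,
    fun w hw => ⟨min N w.length + 1, ?_, ?_⟩⟩
  · exact ⟨_, acceptsIn_of_take_mem ((hiff w).1 hw)⟩
  · obtain ⟨s, hs⟩ := hw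
    exact (hiff w).2 (take_mem_of_acceptsIn hs)
  · simp
  · exact acceptsIn_of_take_mem ((hiff w).1 hw)

/-- Prefix-determined languages lie in every class `coNTIME(Pol t)`. -/
theorem prefixDetermined_mem_co {A : Type} [Finite A] (t : ℕ → ℕ) {L : Set (List A)}
    (h : PrefixDetermined L) : L ∈ coNTIMEPol A t :=
  prefixDetermined_mem t (prefixDetermined_compl h)

/-! ### Polynomials versus powers -/

theorem eval_lt_of_pow_lt (p : Polynomial ℕ) :
    ∃ k C : ℕ, ∀ x n : ℕ, x ^ k < n → C < n → p.eval x < n := by
  refine ⟨p.eval 1 + p.natDegree, p.eval 1, fun x n hx hn => ?_⟩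
  rcases Nat.lt_or_ge x 2 with h | h
  · have hx1 : x ≤ 1 := by omega
    have : p.eval x ≤ p.eval 1 := by
      rw [Polynomial.eval_eq_sum_range, Polynomial.eval_eq_sum_range]
      exact Finset.sum_le_sum fun i _ => Nat.mul_le_mul_left _ (Nat.pow_le_pow_left hx1 i)
    omega
  · have h1 : p.eval x ≤ p.eval 1 * x ^ p.natDegree := by
      rw [Polynomial.eval_eq_sum_range, Polynomial.eval_eq_sum_range, Finset.sum_mul]
      refine Finset.sum_le_sum fun i hi => ?_
      rw [Finset.mem_range] at hi
      rw [one_pow, mul_one]
      exact Nat.mul_le_mul_left _ (Nat.pow_le_pow_right (by omega) (by omega))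
    have h2 : p.eval 1 ≤ x ^ p.eval 1 := by
      calc p.eval 1 ≤ 2 ^ p.eval 1 := Nat.lt_two_pow_self.le
        _ ≤ x ^ p.eval 1 := Nat.pow_le_pow_left h _
    calc p.eval x ≤ p.eval 1 * x ^ p.natDegree := h1
      _ ≤ x ^ p.eval 1 * x ^ p.natDegree := Nat.mul_le_mul_right _ h2
      _ = x ^ (p.eval 1 + p.natDegree) := (pow_add _ _ _).symm
      _ < n := hx

theorem frequently_eval_lt {t : ℕ → ℕ} (h : ∀ k : ℕ, ∃ᶠ n in Filter.atTop, t n ^ k < n)
    (p : Polynomial ℕ) : ∃ᶠ n in Filter.atTop, p.eval (t n) < n := by
  obtain ⟨k, C, hkC⟩ := eval_lt_of_pow_lt p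
  exact ((h k).and_eventually (Filter.eventually_gt_atTop C)).mono
    fun n hn => hkC _ _ hn.1 hn.2

theorem eventually_eval_lt {t : ℕ → ℕ} (h : ∀ k : ℕ, ∀ᶠ n in Filter.atTop, t n ^ k < n)
    (p : Polynomial ℕ) : ∀ᶠ n in Filter.atTop, p.eval (t n) < n := by
  obtain ⟨k, C, hkC⟩ := eval_lt_of_pow_lt p
  filter_upwards [h k, Filter.eventually_gt_atTop C] with n h1 h2 using hkC _ _ h1 h2

/-! ### Sublinear time -/

/-- If `t(n) = n^{o(1)}` then `NTIME(Pol t)` consists of prefix-determined languages. -/
theorem prefixDetermined_of_subpoly {A : Type} {t : ℕ → ℕ}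
    (h : ∀ k : ℕ, ∀ᶠ n in Filter.atTop, t n ^ k < n) {L : Set (List A)} (hL : L ∈ NTIMEPol A t) :
    PrefixDetermined L := by
  obtain ⟨M, p, hM, hp⟩ := hL
  obtain ⟨n0, hn0⟩ := Filter.eventually_atTop.1 (eventually_eval_lt h p)
  -- words of length `≥ n0` in `L` have their proper prefix in `L`
  have key : ∀ n, n0 ≤ n → ∀ w : List A, w.length = n → w ∈ L → w.take n0 ∈ L := by
    intro n hn
    induction n, hn using Nat.le_induction with
    | base =>
      intro w hw hwL
      rwa [List.take_of_length_le hw.le]
    | succ n hn ih =>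
      intro w hw hwL
      obtain ⟨s, hs, hacc⟩ := hp w hwL
      have h1 := hn0 (n + 1) (by omega)
      rw [hw] at hs
      have hsn : s ≤ n := by omega
      have h2 : w.take n ∈ L := by
        rw [hM]
        refine ⟨s, acceptsIn_congr ?_ hacc⟩
        rw [List.take_take, min_eq_left hsn]
      have h3 := ih (w.take n) (by simp; omega) h2
      rwa [List.take_take, min_eq_left hn] at h3
  have key' : ∀ w : List A, n0 ≤ w.length → w.take n0 ∈ L → w ∈ L := by
    intro w hw hwL
    obtain ⟨s, hs, hacc⟩ := hp _ hwL
    have h1 := hn0 n0 le_rfl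
    have hlen : (w.take n0).length = n0 := by simp [hw]
    rw [hlen] at hs
    rw [hM]
    refine ⟨s, acceptsIn_congr ?_ hacc⟩
    rw [List.take_take, min_eq_left (by omega)]
  refine ⟨n0, fun w w' hww => ?_⟩
  by_cases hw : n0 ≤ w.length
  · have hw' : n0 ≤ w'.length := by
      have := congrArg List.length hww
      simp at this
      omega
    exact ⟨fun h1 => key' w' hw' (hww ▸ key _ hw w rfl h1),
      fun h1 => key' w hw (hww ▸ key _ hw' w' rfl h1)⟩
  · have hw' : w'.length < n0 := by
      have := congrArg List.length hww
      simp at this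
      omega
    rw [List.take_of_length_le (by omega), List.take_of_length_le (by omega)] at hww
    rw [hww]

/-- If `t(n)` is infinitely often smaller than every power `n^ε`, then a language lying in
`NTIME(Pol t)` and in `coNTIME(Pol t)` is prefix-determined. -/
theorem prefixDetermined_of_inter {A : Type} {t : ℕ → ℕ}
    (h : ∀ k : ℕ, ∃ᶠ n in Filter.atTop, t n ^ k < n) {L : Set (List A)} (hL : L ∈ NTIMEPol A t)
    (hL' : L ∈ coNTIMEPol A t) : PrefixDetermined L := by
  obtain ⟨M, p, hM, hp⟩ := hL
  obtain ⟨M', p', hM', hp'⟩ := hL'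
  obtain ⟨n, hn⟩ := (frequently_eval_lt h (p + p')).exists
  rw [Polynomial.eval_add] at hn
  -- words of length `≥ n`
  have key : ∀ w : List A, n ≤ w.length → (w ∈ L ↔ w.take n ∈ L) := by
    intro w hw
    have hlen : (w.take n).length = n := by simp [hw]
    by_cases hu : w.take n ∈ L
    · obtain ⟨s, hs, hacc⟩ := hp _ hu
      rw [hlen] at hs
      refine ⟨fun _ => hu, fun _ => ?_⟩
      rw [hM]
      refine ⟨s, acceptsIn_congr ?_ hacc⟩
      rw [List.take_take, min_eq_left (by omega)]
    · obtain ⟨s, hs, hacc⟩ := hp' _ hu
      rw [hlen] at hs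
      refine ⟨fun hwL => ?_, fun hwL => absurd hwL hu⟩
      exfalso
      have : w ∈ Lᶜ := by
        rw [hM']
        refine ⟨s, acceptsIn_congr ?_ hacc⟩
        rw [List.take_take, min_eq_left (by omega)]
      exact this hwL
  refine ⟨n, fun w w' hww => ?_⟩
  by_cases hw : n ≤ w.length
  · have hw' : n ≤ w'.length := by
      have := congrArg List.length hww
      simp at this
      omega
    rw [key w hw, key w' hw', hww]
  · have hw' : w'.length < n := by
      have := congrArg List.length hww
      simp at this
      omega
    rw [List.take_of_length_le (by omega), List.take_of_length_le (by omega)] at hww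
    rw [hww]

/-- Enlarging the time bound polynomially on the lengths of the words of `L`. -/
theorem mem_NTIMEPol_of_le {A : Type} {t u : ℕ → ℕ} {L : Set (List A)} (hL : L ∈ NTIMEPol A u)
    (q : Polynomial ℕ) (h : ∀ w ∈ L, u w.length ≤ q.eval (t w.length)) : L ∈ NTIMEPol A t := by
  obtain ⟨M, p, hM, hp⟩ := hL
  refine ⟨M, p.comp q, hM, fun w hw => ?_⟩
  obtain ⟨s, hs, hacc⟩ := hp w hw
  refine ⟨s, hs.trans ?_, hacc⟩
  rw [Polynomial.eval_comp]
  have hle := h w hw
  rw [Polynomial.eval_eq_sum_range, Polynomial.eval_eq_sum_range]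
  exact Finset.sum_le_sum fun i _ => Nat.mul_le_mul_left _ (Nat.pow_le_pow_left hle i)

end Pool.Agent.Lead.NTM
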